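import Pool.Agent.W400.SC.Tools

/-! # Maps constant on the bottom cell have order two; twice a map is null on the bottom cell -/

set_option autoImplicit false

open unitInterval Topology ContinuousMap
open Pool.Agent.W622.SC Pool.Agent.W400.SC.Tools

namespace Pool.Agent.W400.SC.J2

noncomputable section

variable {Y : Type} [TopologicalSpace Y] {y0 : Y}

/-- four coordinates -/
def v4 (t : Fin 2 → I) (p : I × I) : Fin 4 → I := ![t 0, t 1, p.1, p.2]

lemma v4_cont : Continuous fun x : (Fin 2 → I) × (I × I) => v4 x.1 x.2 := by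
  unfold v4
  refine continuous_pi fun i => ?_
  fin_cases i <;> simp <;> fun_prop

lemma v4_bdry_t (t : Fin 2 → I) (ht : t ∈ Cube.boundary (Fin 2)) (p : I × I) :
    v4 t p ∈ Cube.boundary (Fin 4) := by
  obtain ⟨i, hi⟩ := ht
  fin_cases i
  · exact ⟨0, by simpa [v4] using hi⟩
  · exact ⟨1, by simpa [v4] using hi⟩

lemma v4_bad (t : Fin 2 → I) (p : I × I) (h : Qbad p) : v4 t p ∈ Cube.boundary (Fin 4) := by
  rcases h with h | h | h | ⟨h, -⟩
  · exact ⟨2, Or.inl (by simpa [v4] using h)⟩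
  · exact ⟨2, Or.inr (by simpa [v4] using h)⟩
  · exact ⟨3, Or.inr (by simpa [v4] using h)⟩
  · exact ⟨3, Or.inl (by simpa [v4] using h)⟩

lemma v4_zero (t : Fin 2 → I) (w : I) : v4 t (w, 0) ∈ Cube.boundary (Fin 4) :=
  ⟨3, Or.inl rfl⟩

/-- from four-dimensional loops to `LP` -/
def J (θ : GenLoop (Fin 4) Y y0) : LP QQ.pt y0 :=
  ofSq (y0 := y0) (θ.1.comp ⟨fun x => v4 x.1 x.2, v4_cont⟩)
    (fun t p hp => θ.2 _ (v4_bad t p hp))
    (fun t w w' _ => (θ.2 _ (v4_zero t w)).trans (θ.2 _ (v4_zero t w')).symm)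
    (fun t ht p => θ.2 _ (v4_bdry_t t ht p))

lemma J_apply (θ : GenLoop (Fin 4) Y y0) (t : Fin 2 → I) (p : I × I) :
    (J θ t).1 (QQ.mk p) = θ (v4 t p) := rfl

lemma J_cls {θ θ' : GenLoop (Fin 4) Y y0} (h : GenLoop.Homotopic θ θ') :
    (J θ).cls = (J θ').cls := by
  obtain ⟨H⟩ := h
  have hbd : ∀ s y, y ∈ Cube.boundary (Fin 4) → H (s, y) = y0 := by
    intro s y hy
    rw [H.eq_fst s hy]
    exact θ.2 y hy
  have hc := v4_cont
  refine cls_eq (y0 := y0) ⟨fun x => H (x.1, v4 x.2.1 x.2.2), ?_⟩ ?_ ?_ ?_ _ _ ?_ ?_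
  · refine H.continuous.comp (continuous_fst.prodMk ?_)
    exact hc.comp continuous_snd
  · intro s t p hp
    exact hbd _ _ (v4_bad t p hp)
  · intro s t w w' _
    exact (hbd _ _ (v4_zero t w)).trans (hbd _ _ (v4_zero t w')).symm
  · intro s t ht p
    exact hbd _ _ (v4_bdry_t t ht p)
  · intro t p
    exact H.apply_zero _
  · intro t p
    exact H.apply_one _

lemma cls_sq (g : LP QQ.pt y0) : g.cls ^ 2 = LP.cls (GenLoop.transAt 0 g g) := by
  rw [pow_two]
  exact HomotopyGroup.mul_spec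

lemma transAt_apply {N X : Type} [TopologicalSpace X] [DecidableEq N] {x : X} (i : N)
    (f g : GenLoop N X x) (t : N → I) : GenLoop.transAt i f g t =
      if (t i : ℝ) ≤ 1 / 2 then f (Function.update t i <| Set.projIcc 0 1 zero_le_one (2 * t i))
      else g (Function.update t i <| Set.projIcc 0 1 zero_le_one (2 * t i - 1)) := rfl

lemma proj_two {w : I} (h : (w : ℝ) ≤ 1 / 2) :
    ((Set.projIcc (0 : ℝ) 1 zero_le_one (2 * w) : I) : ℝ) = 2 * w := by
  have h0 := w.2.1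
  rw [Set.coe_projIcc, min_eq_right (by linarith), max_eq_right (by linarith)]

lemma proj_two' {w : I} (h : 1 / 2 ≤ (w : ℝ)) :
    ((Set.projIcc (0 : ℝ) 1 zero_le_one (2 * w - 1) : I) : ℝ) = 2 * w - 1 := by
  have h0 := w.2.2
  rw [Set.coe_projIcc, min_eq_right (by linarith), max_eq_right (by linarith)]

lemma upd_v4_0 (t : Fin 2 → I) (p : I × I) (x : I) :
    Function.update (v4 t p) 0 x = v4 (Function.update t 0 x) p := by
  funext i
  fin_cases i <;> simp [v4]

lemma upd_v4_2 (t : Fin 2 → I) (p : I × I) (x : I) :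
    Function.update (v4 t p) 2 x = v4 t (x, p.2) := by
  funext i
  fin_cases i <;> simp [v4, Function.update]

/-- the loop in four coordinates of an element of `LP` constant on the bottom -/
def Th (g : LP QQ.pt y0) (h : ∀ (t : Fin 2 → I) (w : I), (g t).1 (QQ.mk (w, 0)) = y0) :
    GenLoop (Fin 4) Y y0 :=
  ⟨(sq g).comp ⟨fun u => (![u 0, u 1], (u 2, u 3)), by
    refine Continuous.prodMk ?_ (by fun_prop)
    refine continuous_pi fun i => ?_
    fin_cases i <;> simp <;> fun_prop⟩, by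
    rintro u ⟨i, hi⟩
    change sq g (![u 0, u 1], (u 2, u 3)) = y0
    fin_cases i
    · exact sq_bdry g _ ⟨0, hi⟩ _
    · exact sq_bdry g _ ⟨1, hi⟩ _
    · exact sq_bad g _ _ (by
        rcases hi with hi | hi
        · exact Or.inl hi
        · exact Or.inr (Or.inl hi))
    · rcases hi with hi | hi
      · have : u 3 = 0 := hi
        rw [this]
        exact h _ _
      · exact sq_bad g _ _ (Or.inr (Or.inr (Or.inl hi)))⟩

lemma J_Th (g : LP QQ.pt y0) (h : ∀ (t : Fin 2 → I) (w : I), (g t).1 (QQ.mk (w, 0)) = y0) :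
    J (Th g h) = g := by
  apply LP_ext
  intro t p
  rw [J_apply]
  change sq g (![t 0, t 1], (p.1, p.2)) = _
  have : (![t 0, t 1] : Fin 2 → I) = t := by
    funext i; fin_cases i <;> rfl
  rw [this]
  rfl

lemma J_transAt_zero (θ : GenLoop (Fin 4) Y y0) :
    J (GenLoop.transAt 0 θ θ) = GenLoop.transAt 0 (J θ) (J θ) := by
  apply LP_ext
  intro t p
  rw [J_apply, transAt_apply, transAt_apply, upd_v4_0, upd_v4_0]
  have : v4 t p 0 = t 0 := rfl
  rw [this]
  split_ifs <;> rfl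

/-- the value of the doubled loop in the direction `w` -/
lemma trans2_apply (θ : GenLoop (Fin 4) Y y0) (t : Fin 2 → I) (w r : I) :
    GenLoop.transAt 2 θ θ (v4 t (w, r)) =
      if (w : ℝ) ≤ 1 / 2 then θ (v4 t (Set.projIcc 0 1 zero_le_one (2 * w), r))
      else θ (v4 t (Set.projIcc 0 1 zero_le_one (2 * w - 1), r)) := by
  rw [transAt_apply, upd_v4_2, upd_v4_2]
  rfl

lemma trans2_half (θ : GenLoop (Fin 4) Y y0) (t : Fin 2 → I) (r : I) {w w' : I}
    (h : (w' : ℝ) = w + 1 / 2) :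
    GenLoop.transAt 2 θ θ (v4 t (w, r)) = GenLoop.transAt 2 θ θ (v4 t (w', r)) := by
  have h1 := w.2.1
  have h2 := w'.2.2
  rw [h] at h2
  rw [trans2_apply, trans2_apply, if_pos (by linarith)]
  split_ifs with h3
  · rw [h] at h3
    have hw : (w : ℝ) = 0 := by linarith
    have e1 : (Set.projIcc (0 : ℝ) 1 zero_le_one (2 * (w : ℝ)) : I) = 0 :=
      Subtype.ext (by rw [proj_two (by linarith), hw]; simp)
    have e2 : (Set.projIcc (0 : ℝ) 1 zero_le_one (2 * (w' : ℝ)) : I) = 1 :=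
      Subtype.ext (by rw [proj_two (by linarith), h, hw]; simp)
    rw [e1, e2]
    exact (θ.2 _ ⟨2, Or.inl rfl⟩).trans (θ.2 _ ⟨2, Or.inr rfl⟩).symm
  · rw [h, show 2 * ((w : ℝ) + 1 / 2) - 1 = 2 * w by ring]

lemma trans2_mid (θ : GenLoop (Fin 4) Y y0) (t : Fin 2 → I) (r : I) {w : I}
    (h : (w : ℝ) = 1 / 2) : GenLoop.transAt 2 θ θ (v4 t (w, r)) = y0 := by
  rw [trans2_apply, if_pos h.le]
  have e2 : (Set.projIcc (0 : ℝ) 1 zero_le_one (2 * (w : ℝ)) : I) = 1 :=
    Subtype.ext (by rw [proj_two h.le, h]; simp)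
  rw [e2]
  exact θ.2 _ ⟨2, Or.inr rfl⟩

lemma J_trans2 (θ : GenLoop (Fin 4) Y y0) : (J (GenLoop.transAt 2 θ θ)).cls = 1 := by
  have hone : (1 : PG QQ.pt y0) = LP.cls (GenLoop.const) := rfl
  rw [hone]
  have hbd := (GenLoop.transAt 2 θ θ).2
  have hc := v4_cont
  have hcm := WPQ.cmb_cont
  refine cls_eq (y0 := y0) ⟨fun x => GenLoop.transAt 2 θ θ
    (v4 x.2.1 (x.2.2.1, WPQ.cmb x.1 x.2.2.2 1)), ?_⟩ ?_ ?_ ?_ _ _ ?_ ?_
  · refine (GenLoop.transAt 2 θ θ).1.continuous.comp ?_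
    have h1 : Continuous fun x : I × ((Fin 2 → I) × (I × I)) => WPQ.cmb x.1 x.2.2.2 1 :=
      hcm.comp (by fun_prop :
        Continuous fun x : I × ((Fin 2 → I) × (I × I)) => (x.1, x.2.2.2, (1 : I)))
    have h2 : Continuous fun x : I × ((Fin 2 → I) × (I × I)) => x.2.1 := by fun_prop
    have h3 : Continuous fun x : I × ((Fin 2 → I) × (I × I)) => x.2.2.1 := by fun_prop
    exact hc.comp (h2.prodMk (h3.prodMk h1))
  · rintro s t ⟨w, r⟩ hp
    rcases hp with hp | hp | hp | ⟨hp, hp'⟩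
    · exact hbd _ ⟨2, Or.inl hp⟩
    · exact hbd _ ⟨2, Or.inr hp⟩
    · refine hbd _ ⟨3, Or.inr ?_⟩
      change WPQ.cmb s r 1 = 1
      simp only at hp
      rw [hp, WPQ.cmb_self]
    · exact trans2_mid θ t _ hp'
  · intro s t w w' h
    exact trans2_half θ t _ h
  · intro s t ht p
    exact hbd _ (v4_bdry_t t ht _)
  · rintro t ⟨w, r⟩
    change GenLoop.transAt 2 θ θ (v4 t (w, WPQ.cmb 0 r 1)) = _
    rw [WPQ.cmb_zero]
    rfl
  · rintro t ⟨w, r⟩
    refine hbd _ ⟨3, Or.inr ?_⟩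
    change WPQ.cmb 1 r 1 = 1
    rw [WPQ.cmb_one]

theorem main : S_J2 := by
  intro Y _ y0 g hg
  have h1 : (J (GenLoop.transAt 0 (Th g hg) (Th g hg))) = GenLoop.transAt 0 g g := by
    rw [J_transAt_zero, J_Th]
  rw [cls_sq, ← h1]
  have h2 : GenLoop.Homotopic (GenLoop.transAt 0 (Th g hg) (Th g hg))
      (GenLoop.transAt 2 (Th g hg) (Th g hg)) :=
    Quotient.exact (HomotopyGroup.transAt_indep (i := 0) 2 (Th g hg) (Th g hg))
  rw [J_cls h2]
  exact J_trans2 _

/-! ### three coordinates -/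

/-- three coordinates -/
def v3 (t : Fin 2 → I) (v : I) : Fin 3 → I := ![t 0, t 1, v]

lemma v3_cont : Continuous fun x : (Fin 2 → I) × I => v3 x.1 x.2 := by
  unfold v3
  refine continuous_pi fun i => ?_
  fin_cases i <;> simp <;> fun_prop

/-- half of a coordinate -/
def hf (v : I) : I := ⟨(v : ℝ) / 2, by
  have h1 := v.2.1
  have h2 := v.2.2
  exact ⟨by linarith, by linarith⟩⟩

lemma hf_cont : Continuous hf := by
  unfold hf
  exact Continuous.subtype_mk (by fun_prop) _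

/-- the restriction to the bottom cell -/
def ro (g : LP QQ.pt y0) : GenLoop (Fin 3) Y y0 :=
  ⟨(sq g).comp ⟨fun u => (![u 0, u 1], (hf (u 2), 0)), by
    have := hf_cont
    refine Continuous.prodMk ?_ (by fun_prop)
    refine continuous_pi fun i => ?_
    fin_cases i <;> simp <;> fun_prop⟩, by
    rintro u ⟨i, hi⟩
    change sq g (![u 0, u 1], (hf (u 2), 0)) = y0
    fin_cases i
    · exact sq_bdry g _ ⟨0, hi⟩ _
    · exact sq_bdry g _ ⟨1, hi⟩ _
    · exact sq_bad g _ _ (by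
        rcases hi with hi | hi
        · have : u 2 = 0 := hi
          rw [this]
          left
          exact Subtype.ext (by simp [hf])
        · have : u 2 = 1 := hi
          rw [this]
          right; right; right
          exact ⟨rfl, by simp [hf]⟩)⟩

lemma ro_apply (g : LP QQ.pt y0) (t : Fin 2 → I) (v : I) :
    ro g (v3 t v) = (g t).1 (QQ.mk (hf v, 0)) := by
  change sq g (![t 0, t 1], (hf v, 0)) = _
  have : (![t 0, t 1] : Fin 2 → I) = t := by
    funext i; fin_cases i <;> rfl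
  rw [this]
  rfl

lemma upd_v3_0 (t : Fin 2 → I) (v x : I) :
    Function.update (v3 t v) 0 x = v3 (Function.update t 0 x) v := by
  funext i
  fin_cases i <;> simp [v3]

lemma upd_v3_2 (t : Fin 2 → I) (v x : I) :
    Function.update (v3 t v) 2 x = v3 t x := by
  funext i
  fin_cases i <;> simp [v3, Function.update]

lemma v3_eta (u : Fin 3 → I) : u = v3 ![u 0, u 1] (u 2) := by
  funext i
  fin_cases i <;> rfl

lemma ro_transAt (g : LP QQ.pt y0) :
    ro (GenLoop.transAt 0 g g : LP QQ.pt y0) = GenLoop.transAt 0 (ro g) (ro g) := by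
  apply GenLoop.ext
  intro u
  rw [v3_eta u, ro_apply, transAt_apply, transAt_apply, upd_v3_0, upd_v3_0]
  have : v3 ![u 0, u 1] (u 2) 0 = (![u 0, u 1] : Fin 2 → I) 0 := rfl
  rw [this]
  split_ifs
  · rw [ro_apply]
  · rw [ro_apply]

lemma trans2_ro (g : LP QQ.pt y0) (t : Fin 2 → I) (v : I) :
    GenLoop.transAt 2 (ro g) (ro g) (v3 t v) = (g t).1 (QQ.mk (v, 0)) := by
  rw [transAt_apply, upd_v3_2, upd_v3_2, ro_apply, ro_apply]
  have : v3 t v 2 = v := rfl
  rw [this]
  split_ifs with h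
  · have : hf (Set.projIcc 0 1 zero_le_one (2 * (v : ℝ))) = v :=
      Subtype.ext (by
        change ((Set.projIcc (0 : ℝ) 1 zero_le_one (2 * (v : ℝ)) : I) : ℝ) / 2 = v
        rw [proj_two h]; ring)
    rw [this]
  · push Not at h
    congr 1
    apply WPQ.mk_half
    change (v : ℝ) = ((Set.projIcc (0 : ℝ) 1 zero_le_one (2 * (v : ℝ) - 1) : I) : ℝ) / 2 + 1 / 2
    rw [proj_two' h.le]; ring

lemma trans2_null (g : LP QQ.pt y0) :
    GenLoop.Homotopic (GenLoop.transAt 2 (ro g) (ro g)) (GenLoop.const : GenLoop (Fin 3) Y y0) := by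
  refine ⟨⟨⟨⟨fun x => sq g (![x.2 0, x.2 1], (x.2 2, x.1)), ?_⟩, ?_, ?_⟩, ?_⟩⟩
  · refine (sq g).continuous.comp ?_
    refine Continuous.prodMk ?_ (by fun_prop)
    refine continuous_pi fun i => ?_
    fin_cases i <;> simp <;> fun_prop
  · intro u
    change sq g (![u 0, u 1], (u 2, 0)) = GenLoop.transAt 2 (ro g) (ro g) u
    conv_rhs => rw [v3_eta u]
    rw [trans2_ro]
    rfl
  · intro u
    exact sq_bad g _ _ (Or.inr (Or.inr (Or.inl rfl)))
  · rintro s u hu
    change sq g (![u 0, u 1], (u 2, s)) = GenLoop.transAt 2 (ro g) (ro g) u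
    rw [GenLoop.boundary (GenLoop.transAt 2 (ro g) (ro g)) u hu]
    obtain ⟨i, hi⟩ := hu
    fin_cases i
    · exact sq_bdry g _ ⟨0, hi⟩ _
    · exact sq_bdry g _ ⟨1, hi⟩ _
    · exact sq_bad g _ _ (by
        rcases hi with hi | hi
        · exact Or.inl hi
        · exact Or.inr (Or.inl hi))

theorem main2 : S_Rsq := by
  intro Y _ y0 g
  refine ⟨GenLoop.transAt 0 g g, (cls_sq g).symm, ?_⟩
  have h1 : GenLoop.Homotopic (ro (GenLoop.transAt 0 g g : LP QQ.pt y0))
      (GenLoop.const : GenLoop (Fin 3) Y y0) := by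
    rw [ro_transAt]
    exact (Quotient.exact (HomotopyGroup.transAt_indep (i := 0) 2 (ro g) (ro g)) :
      GenLoop.Homotopic _ _).trans (trans2_null g)
  obtain ⟨H⟩ := h1
  have hc := v3_cont
  refine ⟨⟨fun x => H (x.1, v3 x.2.1 x.2.2), ?_⟩, ?_, ?_, ?_⟩
  · refine H.continuous.comp (continuous_fst.prodMk ?_)
    exact hc.comp continuous_snd
  · intro t v w hw
    change H (0, v3 t v) = _
    rw [H.apply_zero]
    change ro _ (v3 t v) = _
    rw [ro_apply]
    have : hf v = w := Subtype.ext hw.symm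
    rw [this]
  · rintro ⟨t, v⟩
    exact H.apply_one _
  · intro s t v h
    have hb : v3 t v ∈ Cube.boundary (Fin 3) := by
      rcases h with ⟨i, hi⟩ | h | h
      · fin_cases i
        · exact ⟨0, hi⟩
        · exact ⟨1, hi⟩
      · exact ⟨2, Or.inl h⟩
      · exact ⟨2, Or.inr h⟩
    change H (s, v3 t v) = y0
    rw [H.eq_fst s hb]
    exact GenLoop.boundary _ _ hb

end

end Pool.Agent.W400.SC.J2
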