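import Pool.Agent.W400.SC.J2

/-! # Deforming a map to be constant on the bottom cell -/

set_option autoImplicit false

open unitInterval Topology ContinuousMap
open Pool.Agent.W622.SC Pool.Agent.W400.SC.Tools Pool.Agent.W400.SC.J2

namespace Pool.Agent.W400.SC.Jlift

noncomputable section

variable {Y : Type} [TopologicalSpace Y] {y0 : Y}

/-- clamp -/
def cl (x : ℝ) : I := Set.projIcc 0 1 zero_le_one x

lemma cl_cont : Continuous cl := by unfold cl; exact continuous_projIcc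

lemma cl_of_le {x : ℝ} (h : x ≤ 0) : cl x = 0 := by
  unfold cl
  rw [Set.projIcc_of_le_left _ h]; rfl

lemma cl_of_ge {x : ℝ} (h : 1 ≤ x) : cl x = 1 := by
  unfold cl
  rw [Set.projIcc_of_right_le _ h]; rfl

lemma cl_self (x : I) : cl (x : ℝ) = x := Set.projIcc_of_mem _ x.2

lemma cl_val {x : ℝ} (h0 : 0 ≤ x) (h1 : x ≤ 1) : (cl x : ℝ) = x := by
  unfold cl
  rw [Set.projIcc_of_mem _ ⟨h0, h1⟩]

/-- the homotopy, repeated twice -/
def h2 (h : C(I × ((Fin 2 → I) × I), Y))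
    (hb : ∀ s t v, (t ∈ Cube.boundary (Fin 2) ∨ v = 0 ∨ v = 1) → h (s, (t, v)) = y0) :
    C(I × ((Fin 2 → I) × I), Y) where
  toFun x := if (x.2.2 : ℝ) ≤ 1 / 2 then h (x.1, (x.2.1, cl (2 * x.2.2)))
    else h (x.1, (x.2.1, cl (2 * x.2.2 - 1)))
  continuous_toFun := by
    have hc := cl_cont
    refine Continuous.if_le ?_ ?_ (by fun_prop) continuous_const ?_
    · have : Continuous fun x : I × ((Fin 2 → I) × I) => cl (2 * (x.2.2 : ℝ)) :=
        hc.comp (by fun_prop)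
      fun_prop
    · have : Continuous fun x : I × ((Fin 2 → I) × I) => cl (2 * (x.2.2 : ℝ) - 1) :=
        hc.comp (by fun_prop)
      fun_prop
    · intro x hx
      rw [hb _ _ _ (Or.inr (Or.inr (cl_of_ge (by rw [hx]; norm_num)))),
        hb _ _ _ (Or.inr (Or.inl (cl_of_le (by rw [hx]; norm_num))))]

variable (h : C(I × ((Fin 2 → I) × I), Y))
  (hb : ∀ s t v, (t ∈ Cube.boundary (Fin 2) ∨ v = 0 ∨ v = 1) → h (s, (t, v)) = y0)

lemma h2_apply (s : I) (t : Fin 2 → I) (w : I) : h2 h hb (s, (t, w)) =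
    if (w : ℝ) ≤ 1 / 2 then h (s, (t, cl (2 * w))) else h (s, (t, cl (2 * w - 1))) := rfl

lemma h2_zero (s : I) (t : Fin 2 → I) : h2 h hb (s, (t, 0)) = y0 := by
  rw [h2_apply, if_pos (by simp)]
  exact hb _ _ _ (Or.inr (Or.inl (cl_of_le (by simp))))

lemma h2_one (s : I) (t : Fin 2 → I) : h2 h hb (s, (t, 1)) = y0 := by
  rw [h2_apply, if_neg (by simp; norm_num)]
  exact hb _ _ _ (Or.inr (Or.inr (cl_of_ge (by simp; norm_num))))

lemma h2_mid (s : I) (t : Fin 2 → I) {w : I} (hw : (w : ℝ) = 1 / 2) :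
    h2 h hb (s, (t, w)) = y0 := by
  rw [h2_apply, if_pos hw.le]
  exact hb _ _ _ (Or.inr (Or.inr (cl_of_ge (by rw [hw]; norm_num))))

lemma h2_half (s : I) (t : Fin 2 → I) {w w' : I} (hw : (w' : ℝ) = w + 1 / 2) :
    h2 h hb (s, (t, w)) = h2 h hb (s, (t, w')) := by
  have h1 := w.2.1
  have h3 := w'.2.2
  rw [hw] at h3
  rw [h2_apply, if_pos (by linarith)]
  by_cases h4 : (w : ℝ) = 0
  · rw [h2_mid h hb s t (by rw [hw, h4]; norm_num)]
    exact hb _ _ _ (Or.inr (Or.inl (cl_of_le (by rw [h4]; norm_num))))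
  · have h5 : 0 < (w : ℝ) := lt_of_le_of_ne h1 (Ne.symm h4)
    rw [h2_apply, if_neg (by rw [hw]; linarith), hw,
      show 2 * ((w : ℝ) + 1 / 2) - 1 = 2 * w by ring]

lemma h2_bdry (s : I) (t : Fin 2 → I) (ht : t ∈ Cube.boundary (Fin 2)) (w : I) :
    h2 h hb (s, (t, w)) = y0 := by
  rw [h2_apply]
  split_ifs
  · exact hb _ _ _ (Or.inl ht)
  · exact hb _ _ _ (Or.inl ht)

lemma h2_start (g : LP QQ.pt y0)
    (h0 : ∀ (t : Fin 2 → I) (v w : I), (w : ℝ) = v / 2 → h (0, (t, v)) = (g t).1 (QQ.mk (w, 0)))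
    (t : Fin 2 → I) (w : I) : h2 h hb (0, (t, w)) = sq g (t, (w, 0)) := by
  have h1 := w.2.1
  have h3 := w.2.2
  rw [h2_apply]
  split_ifs with h4
  · rw [h0 t _ w (by rw [cl_val (by linarith) (by linarith)]; ring)]
    rfl
  · push Not at h4
    have h5 : (0 : ℝ) ≤ w - 1 / 2 := by linarith
    have h6 : (w : ℝ) - 1 / 2 ≤ 1 := by linarith
    rw [h0 t _ ⟨w - 1 / 2, h5, h6⟩ (by
      rw [cl_val (by linarith) (by linarith)]
      simp only
      ring)]
    rw [sq_apply]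
    congr 1
    exact WPQ.mk_half (by simp only; ring)

/-- the deformation -/
def Ph (g : LP QQ.pt y0)
    (h0 : ∀ (t : Fin 2 → I) (v w : I), (w : ℝ) = v / 2 → h (0, (t, v)) = (g t).1 (QQ.mk (w, 0))) :
    C(I × ((Fin 2 → I) × (I × I)), Y) where
  toFun x := if (x.2.2.2 : ℝ) ≤ x.1 / 2 then h2 h hb (cl (x.1 - 2 * x.2.2.2), (x.2.1, x.2.2.1))
    else sq g (x.2.1, (x.2.2.1, cl ((x.2.2.2 - x.1 / 2) / (1 - x.1 / 2))))
  continuous_toFun := by
    have hc := cl_cont
    refine Continuous.if_le ?_ ?_ (by fun_prop) (by fun_prop) ?_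
    · have : Continuous fun x : I × ((Fin 2 → I) × (I × I)) =>
          cl ((x.1 : ℝ) - 2 * x.2.2.2) := hc.comp (by fun_prop)
      fun_prop
    · have : Continuous fun x : I × ((Fin 2 → I) × (I × I)) =>
          cl (((x.2.2.2 : ℝ) - x.1 / 2) / (1 - x.1 / 2)) := by
        refine hc.comp (Continuous.div (by fun_prop) (by fun_prop) ?_)
        intro x
        have := x.1.2.2
        have : (0 : ℝ) < 1 - x.1 / 2 := by linarith
        exact this.ne'
      fun_prop
    · intro x hx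
      rw [hx, cl_of_le (x := (x.1 : ℝ) - 2 * (x.1 / 2)) (by linarith), h2_start h hb g h0,
        cl_of_le (x := ((x.1 : ℝ) / 2 - x.1 / 2) / (1 - x.1 / 2)) (by simp)]

lemma Ph_apply (g : LP QQ.pt y0)
    (h0 : ∀ (t : Fin 2 → I) (v w : I), (w : ℝ) = v / 2 → h (0, (t, v)) = (g t).1 (QQ.mk (w, 0)))
    (s : I) (t : Fin 2 → I) (w r : I) : Ph h hb g h0 (s, (t, (w, r))) =
      if (r : ℝ) ≤ s / 2 then h2 h hb (cl (s - 2 * r), (t, w))
      else sq g (t, (w, cl ((r - s / 2) / (1 - s / 2)))) := rfl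

lemma Ph_low (g : LP QQ.pt y0)
    (h0 : ∀ (t : Fin 2 → I) (v w : I), (w : ℝ) = v / 2 → h (0, (t, v)) = (g t).1 (QQ.mk (w, 0)))
    (s : I) (t : Fin 2 → I) (w : I) : Ph h hb g h0 (s, (t, (w, 0))) = h2 h hb (s, (t, w)) := by
  have := s.2.1
  rw [Ph_apply, if_pos (by simp only [Set.Icc.coe_zero]; linarith)]
  simp only [Set.Icc.coe_zero, mul_zero, sub_zero, cl_self]

theorem main : S_Jlift := by
  rintro Y _ y0 g ⟨h, h0, h1, hb⟩
  have b1 : ∀ s t p, Qbad p → Ph h hb g h0 (s, (t, p)) = y0 := by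
    rintro s t ⟨w, r⟩ hp
    rcases hp with hp | hp | hp | ⟨hp, hp'⟩
    · simp only at hp; subst hp
      rw [Ph_apply]
      split_ifs
      · exact h2_zero _ _ _ _
      · exact sq_bad g _ _ (Or.inl rfl)
    · simp only at hp; subst hp
      rw [Ph_apply]
      split_ifs
      · exact h2_one _ _ _ _
      · exact sq_bad g _ _ (Or.inr (Or.inl rfl))
    · simp only at hp; subst hp
      have hs := s.2.2
      rw [Ph_apply, if_neg (by simp only [Set.Icc.coe_one]; linarith)]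
      refine sq_bad g _ _ (Or.inr (Or.inr (Or.inl ?_)))
      apply cl_of_ge
      rw [Set.Icc.coe_one, div_self]
      have : (0 : ℝ) < 1 - s / 2 := by linarith
      exact this.ne'
    · simp only at hp hp'; subst hp
      rw [Ph_low]
      exact h2_mid h hb s t hp'
  have b2 : ∀ s t (w w' : I), (w' : ℝ) = w + 1 / 2 →
      Ph h hb g h0 (s, (t, (w, 0))) = Ph h hb g h0 (s, (t, (w', 0))) := by
    intro s t w w' hw
    rw [Ph_low, Ph_low]
    exact h2_half h hb s t hw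
  have b3 : ∀ s t, t ∈ Cube.boundary (Fin 2) → ∀ p, Ph h hb g h0 (s, (t, p)) = y0 := by
    rintro s t ht ⟨w, r⟩
    rw [Ph_apply]
    split_ifs
    · exact h2_bdry h hb _ t ht _
    · exact sq_bdry g t ht _
  refine ⟨ofSq (y0 := y0) ((Ph h hb g h0).comp ⟨fun x => (1, x), by fun_prop⟩)
    (fun t p hp => b1 1 t p hp) (fun t w w' hw => b2 1 t w w' hw) (fun t ht p => b3 1 t ht p),
    ?_, ?_⟩
  · symm
    refine cls_eq (y0 := y0) (Ph h hb g h0) b1 b2 b3 _ _ ?_ ?_
    · rintro t ⟨w, r⟩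
      rw [Ph_apply]
      simp only [Set.Icc.coe_zero, zero_div, sub_zero, div_one, cl_self, zero_sub]
      split_ifs with hr
      · have hr0 : r = 0 := Subtype.ext (le_antisymm hr r.2.1)
        subst hr0
        rw [cl_of_le (by simp), h2_start h hb g h0]
        rfl
      · rfl
    · intro t p
      rfl
  · intro t w
    change Ph h hb g h0 (1, (t, (w, 0))) = y0
    rw [Ph_low, h2_apply]
    split_ifs
    · exact h1 _
    · exact h1 _

end

end Pool.Agent.W400.SC.Jlift
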