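import Pool.Agent.W622.SC.Stmts

/-! # The space `Q` is Hausdorff -/

set_option autoImplicit false

open unitInterval Topology ContinuousMap
open Pool.Agent.W622.SC

namespace Pool.Agent.W400.SC.QQT2

noncomputable section

/-- the separating map on the square -/
def F : C(I × I, ℝ × ℝ × ℝ × ℂ) :=
  ⟨fun x => ((x.2 : ℝ) * (1 - x.2) * (x.1 * (1 - x.1)),
    (x.2 : ℝ) * ((x.2 : ℝ) * (1 - x.2) * (x.1 * (1 - x.1))),
    (x.1 : ℝ) * ((x.2 : ℝ) * (1 - x.2) * (x.1 * (1 - x.1))),
    (1 - ((x.2 : ℝ) : ℂ)) * (Complex.exp (4 * Real.pi * Complex.I * ((x.1 : ℝ) : ℂ)) - 1)),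
    by fun_prop⟩

lemma exp_one : Complex.exp (4 * Real.pi * Complex.I) = 1 := by
  rw [Complex.exp_eq_one_iff]
  exact ⟨2, by push_cast; ring⟩

lemma exp_half : Complex.exp (4 * Real.pi * Complex.I * ((1 / 2 : ℝ) : ℂ)) = 1 := by
  rw [Complex.exp_eq_one_iff]
  exact ⟨1, by push_cast; ring⟩

lemma F_bad (x : I × I) (h : Qbad x) : F x = 0 := by
  obtain ⟨w, r⟩ := x
  rcases h with h | h | h | ⟨h, h'⟩
  · simp only at h; subst h
    simp [F]
  · simp only at h; subst h
    simp [F, exp_one]
  · simp only at h; subst h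
    simp [F]
  · simp only at h h'; subst h
    simp only [F, ContinuousMap.coe_mk, h', exp_half]
    simp

lemma F_half (w w' : I) (h : (w' : ℝ) = w + 1 / 2) : F (w, 0) = F (w', 0) := by
  simp only [F, ContinuousMap.coe_mk, h]
  have : Complex.exp (4 * Real.pi * Complex.I * (((w : ℝ) + 1 / 2 : ℝ) : ℂ)) =
      Complex.exp (4 * Real.pi * Complex.I * ((w : ℝ) : ℂ)) := by
    rw [Complex.exp_eq_exp_iff_exists_int]
    exact ⟨1, by push_cast; ring⟩
  rw [this]
  simp

theorem main : S_QQ := by
  refine T2Space.of_injective_continuous (f := QQ.lift F 0 F_bad F_half) ?_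
    (QQ.lift F 0 F_bad F_half).continuous
  intro a b hab
  obtain ⟨⟨w, r⟩, rfl⟩ := QQ.mk_surj a
  obtain ⟨⟨w', r'⟩, rfl⟩ := QQ.mk_surj b
  rw [QQ.lift_mk, QQ.lift_mk] at hab
  simp only [F, ContinuousMap.coe_mk, Prod.mk.injEq] at hab
  obtain ⟨h1, h2, h3, h4⟩ := hab
  by_cases h0 : (r : ℝ) * (1 - r) * (w * (1 - w)) = 0
  · have h0' : (r' : ℝ) * (1 - r') * (w' * (1 - w')) = 0 := by rw [← h1]; exact h0
    -- each point is bad or has r = 0
    have key : ∀ (w r : I), (r : ℝ) * (1 - r) * (w * (1 - w)) = 0 → Qbad (w, r) ∨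
        (¬ Qbad (w, r) ∧ r = 0 ∧ Complex.exp (4 * Real.pi * Complex.I * ((w : ℝ) : ℂ)) ≠ 1) := by
      intro w r h
      by_cases hb : Qbad (w, r)
      · exact Or.inl hb
      · right
        have hb' := hb
        unfold Qbad at hb'
        push Not at hb'
        obtain ⟨b1, b2, b3, b4⟩ := hb'
        simp only at b1 b2 b3 b4
        have hr : r = 0 := by
          rcases mul_eq_zero.mp h with h | h
          · rcases mul_eq_zero.mp h with h | h
            · exact Subtype.ext h
            · exact absurd (Subtype.ext (by simp only [Set.Icc.coe_one]; linarith)) b3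
          · rcases mul_eq_zero.mp h with h | h
            · exact absurd (Subtype.ext h) b1
            · exact absurd (Subtype.ext (by simp only [Set.Icc.coe_one]; linarith)) b2
        refine ⟨hb, hr, ?_⟩
        intro he
        rw [Complex.exp_eq_one_iff] at he
        obtain ⟨n, hn⟩ := he
        have hpi : (2 * Real.pi * Complex.I : ℂ) ≠ 0 := Complex.two_pi_I_ne_zero
        have h5 : (2 * Real.pi * Complex.I : ℂ) * (2 * ((w : ℝ) : ℂ)) =
            (2 * Real.pi * Complex.I : ℂ) * n := by linear_combination hn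
        have h6 : (2 * ((w : ℝ) : ℂ)) = n := mul_left_cancel₀ hpi h5
        have h7 : 2 * (w : ℝ) = n := by exact_mod_cast h6
        have hw0 : (0 : ℝ) < w := lt_of_le_of_ne w.2.1 (fun h => b1 (Subtype.ext h.symm))
        have hw1 : (w : ℝ) < 1 := lt_of_le_of_ne w.2.2 (fun h => b2 (Subtype.ext h))
        have hn1 : (0 : ℝ) < n := by linarith
        have hn2 : (n : ℝ) < 2 := by linarith
        have hn1' : 0 < n := by exact_mod_cast hn1
        have hn2' : n < 2 := by exact_mod_cast hn2
        have : n = 1 := by omega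
        rw [this] at h7
        push_cast at h7
        exact b4 hr (by linarith)
    rcases key w r h0 with hb | ⟨hb, hr, he⟩
    · rcases key w' r' h0' with hb' | ⟨hb', hr', he'⟩
      · rw [QQ.mk_eq_iff]
        simp [Qnf, hb, hb']
      · exfalso
        have h5 := congrArg (fun v => v.2.2.2) (F_bad (w, r) hb)
        simp only [F, ContinuousMap.coe_mk, Prod.snd_zero] at h5
        rw [h5, hr'] at h4
        simp only [Set.Icc.coe_zero, Complex.ofReal_zero, sub_zero, one_mul] at h4
        exact he' (sub_eq_zero.mp h4.symm)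
    · rcases key w' r' h0' with hb' | ⟨hb', hr', he'⟩
      · exfalso
        have h5 := congrArg (fun v => v.2.2.2) (F_bad (w', r') hb')
        simp only [F, ContinuousMap.coe_mk, Prod.snd_zero] at h5
        rw [h5, hr] at h4
        simp only [Set.Icc.coe_zero, Complex.ofReal_zero, sub_zero, one_mul] at h4
        exact he (sub_eq_zero.mp h4)
      · rw [hr, hr'] at h4
        simp only [Set.Icc.coe_zero, Complex.ofReal_zero, sub_zero, one_mul] at h4
        have h5 : Complex.exp (4 * Real.pi * Complex.I * ((w : ℝ) : ℂ)) =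
            Complex.exp (4 * Real.pi * Complex.I * ((w' : ℝ) : ℂ)) := by
          linear_combination h4
        rw [Complex.exp_eq_exp_iff_exists_int] at h5
        obtain ⟨n, hn⟩ := h5
        have hpi : (2 * Real.pi * Complex.I : ℂ) ≠ 0 := Complex.two_pi_I_ne_zero
        have h6 : (2 * Real.pi * Complex.I : ℂ) * (2 * ((w : ℝ) : ℂ)) =
            (2 * Real.pi * Complex.I : ℂ) * (2 * ((w' : ℝ) : ℂ) + n) := by linear_combination hn
        have h7 : (2 * ((w : ℝ) : ℂ)) = (2 * ((w' : ℝ) : ℂ) + n) := mul_left_cancel₀ hpi h6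
        have h8 : 2 * (w : ℝ) = 2 * (w' : ℝ) + n := by exact_mod_cast h7
        rw [QQ.mk_eq_iff]
        unfold Qnf
        rw [if_neg hb, if_neg hb', if_pos hr, if_pos hr']
        simp only [Option.some.injEq, Prod.mk.injEq, and_true]
        rw [h8, Int.fract_add_intCast]
  · have hr : (r : ℝ) = r' := by
      rw [← h1] at h2
      exact mul_right_cancel₀ h0 h2
    have hw : (w : ℝ) = w' := by
      rw [← h1] at h3
      exact mul_right_cancel₀ h0 h3
    rw [Subtype.ext hr, Subtype.ext hw]

end

end Pool.Agent.W400.SC.QQT2
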