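import Pool.Agent.W400.SC.WPQ

/-! # Tools for the groups `[Σ²Q, Y]` -/

set_option autoImplicit false

open unitInterval Topology ContinuousMap
open Pool.Agent.W622.SC

namespace Pool.Agent.W400.SC.Tools

noncomputable section

variable {Y : Type} [TopologicalSpace Y] {y0 : Y}

/-- a map on `X × I²` compatible with the identifications of `Q` descends to `X × Q` -/
def liftX {X : Type} [TopologicalSpace X] [LocallyCompactSpace X] (g : C(X × (I × I), Y)) (z : Y)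
    (hb : ∀ x p, Qbad p → g (x, p) = z)
    (hh : ∀ x (w w' : I), (w' : ℝ) = w + 1 / 2 → g (x, (w, 0)) = g (x, (w', 0))) :
    C(X × QQ, Y) :=
  ((QQ.lift ((g.comp ⟨Prod.swap, continuous_swap⟩).curry) (ContinuousMap.const X z)
    (by intro p hp; ext x; exact hb x p hp)
    (by intro w w' h; ext x; exact hh x w w' h)).uncurry).comp ⟨Prod.swap, continuous_swap⟩

lemma liftX_mk {X : Type} [TopologicalSpace X] [LocallyCompactSpace X] (g : C(X × (I × I), Y))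
    (z : Y) (hb : ∀ x p, Qbad p → g (x, p) = z)
    (hh : ∀ x (w w' : I), (w' : ℝ) = w + 1 / 2 → g (x, (w, 0)) = g (x, (w', 0))) (x : X)
    (p : I × I) : liftX g z hb hh (x, QQ.mk p) = g (x, p) := rfl

/-- the map on `I² × I²` given by an element of `LP` -/
def sq (g : LP QQ.pt y0) : C((Fin 2 → I) × (I × I), Y) :=
  ⟨fun x => (g x.1).1 (QQ.mk x.2), by
    have h1 : Continuous fun x : (Fin 2 → I) × (I × I) => ((g x.1).1.comp QQ.mk : C(I × I, Y)) :=
      (ContinuousMap.continuous_precomp QQ.mk).comp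
        (continuous_subtype_val.comp (g.1.continuous.comp continuous_fst))
    exact h1.eval continuous_snd⟩

lemma sq_apply (g : LP QQ.pt y0) (t : Fin 2 → I) (p : I × I) :
    sq g (t, p) = (g t).1 (QQ.mk p) := rfl

lemma sq_bad (g : LP QQ.pt y0) (t : Fin 2 → I) (p : I × I) (h : Qbad p) : sq g (t, p) = y0 := by
  rw [sq_apply, WPQ.mk_bad h]
  exact (g t).2

lemma sq_bdry (g : LP QQ.pt y0) (t : Fin 2 → I) (ht : t ∈ Cube.boundary (Fin 2)) (p : I × I) :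
    sq g (t, p) = y0 := by
  have := g.2 t ht
  change (g.1 t).1 (QQ.mk p) = y0
  rw [this]
  rfl

lemma sq_half (g : LP QQ.pt y0) (t : Fin 2 → I) {w w' : I} (h : (w' : ℝ) = w + 1 / 2) :
    sq g (t, (w, 0)) = sq g (t, (w', 0)) := by
  rw [sq_apply, sq_apply, WPQ.mk_half h]

/-- an element of `LP` from a map on `I² × I²` -/
def ofSq (φ : C((Fin 2 → I) × (I × I), Y)) (hb : ∀ t p, Qbad p → φ (t, p) = y0)
    (hh : ∀ t (w w' : I), (w' : ℝ) = w + 1 / 2 → φ (t, (w, 0)) = φ (t, (w', 0)))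
    (ht : ∀ t, t ∈ Cube.boundary (Fin 2) → ∀ p, φ (t, p) = y0) : LP QQ.pt y0 :=
  ⟨⟨fun t => ⟨(liftX φ y0 hb hh).curry t, by
      change liftX φ y0 hb hh (t, QQ.mk (0, 0)) = y0
      rw [liftX_mk]
      exact hb _ _ (Or.inl rfl)⟩, by
    apply Continuous.subtype_mk
    exact ((liftX φ y0 hb hh).curry).continuous⟩, by
    intro t ht'
    apply Subtype.ext
    ext q
    obtain ⟨p, rfl⟩ := QQ.mk_surj q
    exact ht t ht' p⟩

lemma ofSq_apply (φ : C((Fin 2 → I) × (I × I), Y)) (hb : ∀ t p, Qbad p → φ (t, p) = y0)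
    (hh : ∀ t (w w' : I), (w' : ℝ) = w + 1 / 2 → φ (t, (w, 0)) = φ (t, (w', 0)))
    (ht : ∀ t, t ∈ Cube.boundary (Fin 2) → ∀ p, φ (t, p) = y0) (t : Fin 2 → I) (p : I × I) :
    (ofSq φ hb hh ht t).1 (QQ.mk p) = φ (t, p) := rfl

lemma LP_ext {g g' : LP QQ.pt y0} (h : ∀ t p, (g t).1 (QQ.mk p) = (g' t).1 (QQ.mk p)) :
    g = g' := by
  apply GenLoop.ext
  intro t
  apply Subtype.ext
  ext q
  obtain ⟨p, rfl⟩ := QQ.mk_surj q
  exact h t p

/-- homotopies of maps on `I² × I²` -/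
lemma cls_eq (Φ : C(I × ((Fin 2 → I) × (I × I)), Y))
    (hb : ∀ s t p, Qbad p → Φ (s, (t, p)) = y0)
    (hh : ∀ s t (w w' : I), (w' : ℝ) = w + 1 / 2 → Φ (s, (t, (w, 0))) = Φ (s, (t, (w', 0))))
    (ht : ∀ s t, t ∈ Cube.boundary (Fin 2) → ∀ p, Φ (s, (t, p)) = y0)
    (g g' : LP QQ.pt y0) (h0 : ∀ t p, Φ (0, (t, p)) = (g t).1 (QQ.mk p))
    (h1 : ∀ t p, Φ (1, (t, p)) = (g' t).1 (QQ.mk p)) : g.cls = g'.cls := by
  apply Quotient.sound
  let Ψ : C((I × (Fin 2 → I)) × (I × I), Y) := Φ.comp ⟨fun x => (x.1.1, (x.1.2, x.2)), by fun_prop⟩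
  have hb' : ∀ x p, Qbad p → Ψ (x, p) = y0 := fun x p hp => hb x.1 x.2 p hp
  have hh' : ∀ x (w w' : I), (w' : ℝ) = w + 1 / 2 → Ψ (x, (w, 0)) = Ψ (x, (w', 0)) :=
    fun x w w' h => hh x.1 x.2 w w' h
  let L := liftX Ψ y0 hb' hh'
  have hpt : ∀ x, L.curry x QQ.pt = y0 := fun x => hb' x (0, 0) (Or.inl rfl)
  refine ⟨⟨⟨⟨fun x => ⟨L.curry x, hpt x⟩, ?_⟩, ?_, ?_⟩, ?_⟩⟩
  · apply Continuous.subtype_mk
    exact (L.curry).continuous
  · intro t
    apply Subtype.ext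
    ext q
    obtain ⟨p, rfl⟩ := QQ.mk_surj q
    exact h0 t p
  · intro t
    apply Subtype.ext
    ext q
    obtain ⟨p, rfl⟩ := QQ.mk_surj q
    exact h1 t p
  · intro s t ht'
    apply Subtype.ext
    ext q
    obtain ⟨p, rfl⟩ := QQ.mk_surj q
    refine (ht s t ht' p).trans ?_
    exact (sq_bdry g t ht' p).symm

end

end Pool.Agent.W400.SC.Tools
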