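import Pool.Agent.W622.SC.Stmts

/-! # `K ∨ P → K ∪ (C × P)` is a homotopy equivalence for contractible `C` -/

set_option autoImplicit false

open unitInterval Topology ContinuousMap
open Pool.Agent.W622.SC

namespace Pool.Agent.W400.SC.Trans

noncomputable section

variable {K C P : Type} [TopologicalSpace K] [TopologicalSpace C] [TopologicalSpace P]

/-- clamp to the unit interval -/
def cl (x : ℝ) : I := Set.projIcc 0 1 zero_le_one x

lemma cl_cont : Continuous cl := by unfold cl; exact continuous_projIcc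

lemma cl_of_le {x : ℝ} (h : x ≤ 0) : cl x = 0 := by
  unfold cl
  rw [Set.projIcc_of_le_left _ h]; rfl

lemma cl_of_ge {x : ℝ} (h : 1 ≤ x) : cl x = 1 := by
  unfold cl
  rw [Set.projIcc_of_right_le _ h]; rfl

/-- the inclusion -/
def iM (e : C(C, K)) (p0 : P) (c0 : C) : C(Wg (e c0) p0, At e p0) :=
  At.lift (At.inK e p0) ((At.inP e p0).comp ⟨fun x => (c0, x.2), by fun_prop⟩)
    (fun _ => At.glue e p0 c0)

/-- the map `C × P → K ∨ P` -/
def jP (e : C(C, K)) (p0 : P) (W : WP P p0) (c0 : C) (h : C(I × C, C))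
    (h1 : ∀ c, h (1, c) = c0) : C(C × P, Wg (e c0) p0) where
  toFun x := if W.rho x.2 ≤ 1 / 2 then
      At.inK (⟨fun _ => e c0, continuous_const⟩ : C(Unit, K)) p0 (e (h (cl (2 * W.rho x.2), x.1)))
    else At.inP (⟨fun _ => e c0, continuous_const⟩ : C(Unit, K)) p0 ((), W.lam (1, x.2))
  continuous_toFun := by
    have hc := cl_cont
    refine Continuous.if_le ?_ ?_ (by fun_prop) continuous_const ?_
    · refine (At.inK _ p0).continuous.comp (e.continuous.comp (h.continuous.comp ?_))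
      exact (hc.comp (by fun_prop)).prodMk continuous_fst
    · refine (At.inP _ p0).continuous.comp ?_
      fun_prop
    · intro x hx
      rw [W.lam_one x.2 hx.le, At.glue, hx, cl_of_ge (by norm_num), h1]
      rfl

/-- the map back -/
def jM (e : C(C, K)) (p0 : P) (W : WP P p0) (c0 : C) (h : C(I × C, C))
    (h0 : ∀ c, h (0, c) = c) (h1 : ∀ c, h (1, c) = c0) : C(At e p0, Wg (e c0) p0) :=
  At.lift (At.inK _ p0) (jP e p0 W c0 h h1) (by
    intro c
    change (if W.rho p0 ≤ 1 / 2 then _ else _) = _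
    have : W.rho p0 = 0 := (W.rho_eq_zero p0).mpr rfl
    rw [if_pos (by rw [this]; norm_num), this, cl_of_le (by norm_num), h0])

lemma jM_low (e : C(C, K)) (p0 : P) (W : WP P p0) (c0 : C) (h : C(I × C, C))
    (h0 : ∀ c, h (0, c) = c) (h1 : ∀ c, h (1, c) = c0) (c : C) (p : P) (hp : W.rho p ≤ 1 / 2) :
    jM e p0 W c0 h h0 h1 (At.inP e p0 (c, p)) =
      At.inK (⟨fun _ => e c0, continuous_const⟩ : C(Unit, K)) p0
        (e (h (cl (2 * W.rho p), c))) := by
  change (if W.rho p ≤ 1 / 2 then _ else _) = _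
  rw [if_pos hp]

lemma jM_high (e : C(C, K)) (p0 : P) (W : WP P p0) (c0 : C) (h : C(I × C, C))
    (h0 : ∀ c, h (0, c) = c) (h1 : ∀ c, h (1, c) = c0) (c : C) (p : P) (hp : ¬ W.rho p ≤ 1 / 2) :
    jM e p0 W c0 h h0 h1 (At.inP e p0 (c, p)) =
      At.inP (⟨fun _ => e c0, continuous_const⟩ : C(Unit, K)) p0 ((), W.lam (1, p)) := by
  change (if W.rho p ≤ 1 / 2 then _ else _) = _
  rw [if_neg hp]

lemma jM_inK (e : C(C, K)) (p0 : P) (W : WP P p0) (c0 : C) (h : C(I × C, C))
    (h0 : ∀ c, h (0, c) = c) (h1 : ∀ c, h (1, c) = c0) (k : K) :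
    jM e p0 W c0 h h0 h1 (At.inK e p0 k) =
      At.inK (⟨fun _ => e c0, continuous_const⟩ : C(Unit, K)) p0 k := rfl

lemma iM_inK (e : C(C, K)) (p0 : P) (c0 : C) (k : K) :
    iM e p0 c0 (At.inK _ p0 k) = At.inK e p0 k := rfl

lemma iM_inP (e : C(C, K)) (p0 : P) (c0 : C) (u : Unit) (p : P) :
    iM e p0 c0 (At.inP _ p0 (u, p)) = At.inP e p0 (c0, p) := rfl

/-- homotopy on the big space -/
def G (e : C(C, K)) (p0 : P) (W : WP P p0) (h : C(I × C, C)) (h0 : ∀ c, h (0, c) = c) :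
    C(I × At e p0, At e p0) :=
  At.liftH ((At.inK e p0).comp ⟨Prod.snd, continuous_snd⟩)
    ((At.inP e p0).comp ⟨fun x => (h (cl (2 * x.1 * W.rho x.2.2), x.2.1), W.lam (x.1, x.2.2)), by
      have hc := cl_cont
      refine Continuous.prodMk (h.continuous.comp ?_) (by fun_prop)
      exact (hc.comp (by fun_prop)).prodMk (by fun_prop)⟩) (by
      intro s c
      change At.inP e p0 (h (cl (2 * s * W.rho p0), c), W.lam (s, p0)) = At.inK e p0 (e c)
      have : W.rho p0 = 0 := (W.rho_eq_zero p0).mpr rfl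
      rw [this, mul_zero, cl_of_le le_rfl, h0, W.lam_base, At.glue])

lemma G_inK (e : C(C, K)) (p0 : P) (W : WP P p0) (h : C(I × C, C)) (h0 : ∀ c, h (0, c) = c)
    (s : I) (k : K) : G e p0 W h h0 (s, At.inK e p0 k) = At.inK e p0 k := rfl

lemma G_inP (e : C(C, K)) (p0 : P) (W : WP P p0) (h : C(I × C, C)) (h0 : ∀ c, h (0, c) = c)
    (s : I) (c : C) (p : P) : G e p0 W h h0 (s, At.inP e p0 (c, p)) =
      At.inP e p0 (h (cl (2 * s * W.rho p), c), W.lam (s, p)) := rfl

/-- homotopy on the wedge -/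
def H {k0 : K} (p0 : P) (W : WP P p0) : C(I × Wg k0 p0, Wg k0 p0) :=
  At.liftH ((At.inK _ p0).comp ⟨Prod.snd, continuous_snd⟩)
    ((At.inP _ p0).comp ⟨fun x => (x.2.1, W.lam (x.1, x.2.2)), by fun_prop⟩) (by
      intro s c
      change At.inP _ p0 (c, W.lam (s, p0)) = At.inK _ p0 k0
      rw [W.lam_base, At.glue]; rfl)

lemma H_inK {k0 : K} (p0 : P) (W : WP P p0) (s : I) (k : K) :
    H (k0 := k0) p0 W (s, At.inK _ p0 k) = At.inK _ p0 k := rfl

lemma H_inP {k0 : K} (p0 : P) (W : WP P p0) (s : I) (u : Unit) (p : P) :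
    H (k0 := k0) p0 W (s, At.inP _ p0 (u, p)) = At.inP _ p0 (u, W.lam (s, p)) := rfl

theorem main : S_trans := by
  intro K C P _ _ _ e p0 W c0 h h0 h1 hc0
  refine ⟨iM e p0 c0, jM e p0 W c0 h h0 h1, ?_, ?_, fun k => rfl, fun k => rfl, fun p => rfl, ?_⟩
  · refine Homotopic.symm ⟨⟨G e p0 W h h0, ?_, ?_⟩⟩
    · intro x
      change G e p0 W h h0 (0, x) = x
      revert x
      refine At.ind ?_ ?_
      · intro k; rfl
      · intro c p
        rw [G_inP, W.lam_zero]
        have : cl (2 * ((0 : I) : ℝ) * W.rho p) = 0 := cl_of_le (by simp)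
        rw [this, h0]
    · intro x
      change G e p0 W h h0 (1, x) = iM e p0 c0 (jM e p0 W c0 h h0 h1 x)
      revert x
      refine At.ind ?_ ?_
      · intro k; rfl
      · intro c p
        rw [G_inP]
        have e1 : (2 * ((1 : I) : ℝ) * W.rho p) = 2 * W.rho p := by simp
        rw [e1]
        by_cases hp : W.rho p ≤ 1 / 2
        · rw [jM_low _ _ _ _ _ _ _ _ _ hp, iM_inK, W.lam_one p hp, At.glue]
        · rw [jM_high _ _ _ _ _ _ _ _ _ hp, iM_inP]
          push Not at hp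
          rw [cl_of_ge (by linarith), h1]
  · refine Homotopic.symm ⟨⟨H p0 W, ?_, ?_⟩⟩
    · intro x
      change H p0 W (0, x) = x
      revert x
      refine At.ind ?_ ?_
      · intro k; rfl
      · intro c p
        rw [H_inP, W.lam_zero]
    · intro x
      change H p0 W (1, x) = jM e p0 W c0 h h0 h1 (iM e p0 c0 x)
      revert x
      refine At.ind ?_ ?_
      · intro k; rfl
      · intro c p
        rw [H_inP, iM_inP]
        by_cases hp : W.rho p ≤ 1 / 2
        · rw [jM_low _ _ _ _ _ _ _ _ _ hp, W.lam_one p hp, At.glue, hc0]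
          rfl
        · rw [jM_high _ _ _ _ _ _ _ _ _ hp]
  · intro c p
    by_cases hp : W.rho p ≤ 1 / 2
    · left
      exact ⟨_, jM_low e p0 W c0 h h0 h1 c p hp⟩
    · right
      exact jM_high e p0 W c0 h h0 h1 c p hp

end

end Pool.Agent.W400.SC.Trans
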