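import Pool.Agent.W622.SC.Stmts

/-! # The space `Q` is nicely pointed -/

set_option autoImplicit false

open unitInterval Topology ContinuousMap
open Pool.Agent.W622.SC

namespace Pool.Agent.W400.SC.WPQ

noncomputable section

/-- clamp to `[0, 1/2]` -/
def ka (x : ℝ) : ℝ := max 0 (min x (1 / 2))

lemma ka_cont : Continuous ka := by unfold ka; fun_prop

lemma ka_nonneg (x : ℝ) : 0 ≤ ka x := le_max_left _ _

lemma ka_le (x : ℝ) : ka x ≤ 1 / 2 := max_le (by norm_num) (min_le_right _ _)

lemma ka_low {x : ℝ} (h : x ≤ 0) : ka x = 0 := by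
  unfold ka
  exact max_eq_left ((min_le_left _ _).trans h)

lemma ka_high {x : ℝ} (h : 1 / 2 ≤ x) : ka x = 1 / 2 := by
  unfold ka
  rw [min_eq_right h]
  norm_num

/-- the piecewise linear map `E` -/
def E (w : I) : I := ⟨ka (2 * w - 1 / 4) + ka (2 * w - 5 / 4), by
  have h1 := ka_nonneg (2 * w - 1 / 4)
  have h2 := ka_nonneg (2 * w - 5 / 4)
  have h3 := ka_le (2 * w - 1 / 4)
  have h4 := ka_le (2 * w - 5 / 4)
  exact ⟨by linarith, by linarith⟩⟩

lemma E_val (w : I) : (E w : ℝ) = ka (2 * w - 1 / 4) + ka (2 * w - 5 / 4) := rfl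

lemma E_cont : Continuous E := by
  unfold E
  have := ka_cont
  exact Continuous.subtype_mk (by fun_prop) _

lemma E_low {w : I} (h : (w : ℝ) ≤ 1 / 8) : E w = 0 :=
  Subtype.ext (by rw [E_val, ka_low (by linarith), ka_low (by linarith)]; simp)

lemma E_high {w : I} (h : 7 / 8 ≤ (w : ℝ)) : E w = 1 :=
  Subtype.ext (by rw [E_val, ka_high (by linarith), ka_high (by linarith)]; norm_num)

lemma E_mid {w : I} (h : 3 / 8 ≤ (w : ℝ)) (h' : (w : ℝ) ≤ 5 / 8) : (E w : ℝ) = 1 / 2 := by
  rw [E_val, ka_high (by linarith), ka_low (by linarith)]; norm_num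

lemma E_half {w w' : I} (h : (w' : ℝ) = w + 1 / 2) : (E w' : ℝ) = E w + 1 / 2 := by
  have h1 := w.2.1
  have h2 := w'.2.2
  rw [E_val, E_val, h, ka_high (by linarith), ka_low (x := 2 * (w : ℝ) - 5 / 4) (by linarith)]
  rw [show 2 * ((w : ℝ) + 1 / 2) - 5 / 4 = 2 * w - 1 / 4 by ring]
  ring

/-- the map of the height -/
def R (r : I) : I := Set.projIcc 0 1 zero_le_one (((r : ℝ) - 1 / 8) * (4 / 3))

lemma R_cont : Continuous R := by
  unfold R
  exact continuous_projIcc.comp (by fun_prop)

lemma R_low {r : I} (h : (r : ℝ) ≤ 1 / 8) : R r = 0 := by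
  unfold R
  rw [Set.projIcc_of_le_left _ (by linarith)]; rfl

lemma R_high {r : I} (h : 7 / 8 ≤ (r : ℝ)) : R r = 1 := by
  unfold R
  rw [Set.projIcc_of_right_le _ (by linarith)]; rfl

/-- convex combination -/
def cmb (s a b : I) : I := ⟨(1 - (s : ℝ)) * a + s * b, by
  have h1 := s.2.1
  have h2 := s.2.2
  have h3 := a.2.1
  have h4 := a.2.2
  have h5 := b.2.1
  have h6 := b.2.2
  constructor
  · have := mul_nonneg (sub_nonneg.mpr h2) h3
    have := mul_nonneg h1 h5
    linarith
  · have := mul_le_mul_of_nonneg_left h4 (sub_nonneg.mpr h2)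
    have := mul_le_mul_of_nonneg_left h6 h1
    linarith⟩

lemma cmb_val (s a b : I) : (cmb s a b : ℝ) = (1 - (s : ℝ)) * a + s * b := rfl

lemma cmb_cont : Continuous fun p : I × I × I => cmb p.1 p.2.1 p.2.2 := by
  unfold cmb
  exact Continuous.subtype_mk (by fun_prop) _

lemma cmb_zero (a b : I) : cmb 0 a b = a := Subtype.ext (by rw [cmb_val]; simp)

lemma cmb_one (a b : I) : cmb 1 a b = b := Subtype.ext (by rw [cmb_val]; simp)

lemma cmb_self (s a : I) : cmb s a a = a := Subtype.ext (by rw [cmb_val]; ring)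

/-- the homotopy on the square -/
def L : C((I × I) × I, QQ) := QQ.mk.comp
  ⟨fun x => (cmb x.2 x.1.1 (E x.1.1), cmb x.2 x.1.2 (R x.1.2)), by
    have h1 := E_cont
    have h2 := R_cont
    refine Continuous.prodMk ?_ ?_
    · exact cmb_cont.comp (by fun_prop : Continuous fun x : (I × I) × I => (x.2, x.1.1, E x.1.1))
    · exact cmb_cont.comp (by fun_prop : Continuous fun x : (I × I) × I => (x.2, x.1.2, R x.1.2))⟩

lemma L_apply (w r s : I) : L ((w, r), s) = QQ.mk (cmb s w (E w), cmb s r (R r)) := rfl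

lemma mk_bad {x : I × I} (h : Qbad x) : QQ.mk x = QQ.pt := by
  unfold QQ.pt
  rw [QQ.mk_eq_iff]
  have : Qbad (0, 0) := Or.inl rfl
  simp [Qnf, h, this]

lemma mk_eq_pt {x : I × I} : QQ.mk x = QQ.pt ↔ Qbad x := by
  constructor
  · intro h
    unfold QQ.pt at h
    rw [QQ.mk_eq_iff] at h
    have h0 : Qbad (0, 0) := Or.inl rfl
    by_contra hb
    unfold Qnf at h
    rw [if_neg hb, if_pos h0] at h
    split_ifs at h
  · exact mk_bad

lemma mk_half {w w' : I} (h : (w' : ℝ) = w + 1 / 2) : QQ.mk (w, 0) = QQ.mk (w', 0) := by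
  rw [QQ.mk_eq_iff]
  unfold Qnf
  have h1 := w.2.1
  have h2 := w'.2.2
  by_cases hb : Qbad (w, 0)
  · have hb' : Qbad (w', 0) := by
      rcases hb with hb | hb | hb | ⟨-, hb⟩
      · simp only at hb; subst hb
        right; right; right
        refine ⟨rfl, ?_⟩
        simp only; rw [h]; simp
      · simp only at hb; subst hb
        rw [h] at h2; simp only [Set.Icc.coe_one] at h2; linarith
      · simp at hb
      · simp only at hb
        right; left
        exact Subtype.ext (by simp only [Set.Icc.coe_one]; rw [h, hb]; norm_num)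
    rw [if_pos hb, if_pos hb']
  · have hb' : ¬ Qbad (w', 0) := by
      intro hb'
      apply hb
      rcases hb' with hb | hb | hb | ⟨-, hb⟩
      · simp only at hb
        have := congrArg (fun v : I => (v : ℝ)) hb
        simp only [Set.Icc.coe_zero] at this
        rw [h] at this
        linarith
      · simp only at hb
        have := congrArg (fun v : I => (v : ℝ)) hb
        simp only [Set.Icc.coe_one] at this
        rw [h] at this
        right; right; right
        exact ⟨rfl, by simp only; linarith⟩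
      · simp at hb
      · simp only at hb
        left
        exact Subtype.ext (by simp only [Set.Icc.coe_zero]; linarith)
    rw [if_neg hb, if_neg hb']
    simp only [if_true, Option.some.injEq, Prod.mk.injEq, and_true]
    rw [h, show 2 * ((w : ℝ) + 1 / 2) = 2 * (w : ℝ) + (1 : ℤ) by push_cast; ring,
      Int.fract_add_intCast]

lemma L_bad (x : I × I) (h : Qbad x) : L.curry x = ContinuousMap.const I QQ.pt := by
  obtain ⟨w, r⟩ := x
  ext s
  rw [ContinuousMap.curry_apply, ContinuousMap.const_apply, L_apply]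
  apply mk_bad
  rcases h with h | h | h | ⟨h, h'⟩
  · simp only at h; subst h
    left
    simp only
    rw [E_low (by simp), cmb_self]
  · simp only at h; subst h
    right; left
    simp only
    rw [E_high (by simp; norm_num), cmb_self]
  · simp only at h; subst h
    right; right; left
    simp only
    rw [R_high (by simp; norm_num), cmb_self]
  · simp only at h h'; subst h
    right; right; right
    simp only
    rw [R_low (by simp), cmb_self]
    refine ⟨rfl, ?_⟩
    rw [cmb_val, E_mid (by rw [h']; norm_num) (by rw [h']; norm_num), h']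
    ring

lemma L_half (w w' : I) (h : (w' : ℝ) = w + 1 / 2) : L.curry (w, 0) = L.curry (w', 0) := by
  ext s
  rw [ContinuousMap.curry_apply, ContinuousMap.curry_apply, L_apply, L_apply, R_low (by simp),
    cmb_self]
  apply mk_half
  rw [cmb_val, cmb_val, E_half h, h]
  ring

/-- the homotopy -/
def lam : C(I × QQ, QQ) :=
  ((QQ.lift L.curry (ContinuousMap.const I QQ.pt) L_bad L_half).uncurry).comp
    ⟨Prod.swap, continuous_swap⟩

lemma lam_mk (s w r : I) : lam (s, QQ.mk (w, r)) = QQ.mk (cmb s w (E w), cmb s r (R r)) := rfl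

/-- the size function on the square -/
def rh : C(I × I, ℝ) :=
  ⟨fun x => min 1 (4 * min (min (min (x.1 : ℝ) (1 - x.1)) (1 - (x.2 : ℝ)))
    (max |(x.1 : ℝ) - 1 / 2| (x.2 : ℝ))), by fun_prop⟩

lemma rh_apply (w r : I) : rh (w, r) = min 1 (4 * min (min (min (w : ℝ) (1 - w)) (1 - (r : ℝ)))
    (max |(w : ℝ) - 1 / 2| (r : ℝ))) := rfl

lemma rh_nonneg (x : I × I) : 0 ≤ rh x := by
  obtain ⟨w, r⟩ := x
  rw [rh_apply]
  have h1 := w.2.1
  have h2 := w.2.2
  have h3 := r.2.1
  have h4 := r.2.2
  refine le_min (by norm_num) (mul_nonneg (by norm_num) ?_)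
  refine le_min (le_min (le_min h1 (by linarith)) (by linarith)) (h3.trans (le_max_right _ _))

lemma rh_zero (x : I × I) : rh x = 0 ↔ Qbad x := by
  constructor
  · obtain ⟨w, r⟩ := x
    intro h
    rw [rh_apply] at h
    have h1 := w.2.1
    have h2 := w.2.2
    have h3 := r.2.1
    have h4 := r.2.2
    have h5 : min (min (min (w : ℝ) (1 - w)) (1 - (r : ℝ))) (max |(w : ℝ) - 1 / 2| (r : ℝ)) ≤ 0 := by
      by_contra hc
      push Not at hc
      have : 0 < min 1 (4 * min (min (min (w : ℝ) (1 - w)) (1 - (r : ℝ)))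
          (max |(w : ℝ) - 1 / 2| (r : ℝ))) := lt_min one_pos (by linarith)
      linarith
    rcases min_le_iff.mp h5 with h5 | h5
    · rcases min_le_iff.mp h5 with h5 | h5
      · rcases min_le_iff.mp h5 with h5 | h5
        · left; exact Subtype.ext (le_antisymm h5 h1)
        · right; left; exact Subtype.ext (by simp only [Set.Icc.coe_one]; linarith)
      · right; right; left; exact Subtype.ext (by simp only [Set.Icc.coe_one]; linarith)
    · right; right; right
      obtain ⟨h6, h7⟩ := max_le_iff.mp h5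
      refine ⟨Subtype.ext (le_antisymm h7 h3), ?_⟩
      have := abs_nonpos_iff.mp h6
      simp only; linarith
  · intro h
    refine le_antisymm ?_ (rh_nonneg x)
    obtain ⟨w, r⟩ := x
    rw [rh_apply]
    refine (min_le_right _ _).trans ?_
    rcases h with h | h | h | ⟨h, h'⟩
    · simp only at h; subst h
      have : min (min (min ((0 : I) : ℝ) (1 - ((0 : I) : ℝ))) (1 - (r : ℝ)))
        (max |((0 : I) : ℝ) - 1 / 2| (r : ℝ)) ≤ 0 :=
        (min_le_left _ _).trans ((min_le_left _ _).trans ((min_le_left _ _).trans (by simp)))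
      linarith
    · simp only at h; subst h
      have : min (min (min ((1 : I) : ℝ) (1 - ((1 : I) : ℝ))) (1 - (r : ℝ)))
        (max |((1 : I) : ℝ) - 1 / 2| (r : ℝ)) ≤ 0 :=
        (min_le_left _ _).trans ((min_le_left _ _).trans ((min_le_right _ _).trans (by simp)))
      linarith
    · simp only at h; subst h
      have : min (min (min (w : ℝ) (1 - (w : ℝ))) (1 - ((1 : I) : ℝ)))
        (max |(w : ℝ) - 1 / 2| ((1 : I) : ℝ)) ≤ 0 :=
        (min_le_left _ _).trans ((min_le_right _ _).trans (by simp))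
      linarith
    · simp only at h h'; subst h
      have : min (min (min (w : ℝ) (1 - (w : ℝ))) (1 - ((0 : I) : ℝ)))
        (max |(w : ℝ) - 1 / 2| ((0 : I) : ℝ)) ≤ 0 :=
        (min_le_right _ _).trans (by rw [h']; simp)
      linarith

lemma rh_half (w w' : I) (h : (w' : ℝ) = w + 1 / 2) : rh (w, 0) = rh (w', 0) := by
  have h1 := w.2.1
  have h2 := w'.2.2
  rw [h] at h2
  have h3 : (w : ℝ) ≤ 1 / 2 := by linarith
  rw [rh_apply, rh_apply, h]
  congr 2
  simp only [Set.Icc.coe_zero, sub_zero]
  rw [abs_of_nonpos (by linarith), abs_of_nonneg (by linarith)]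
  rw [max_eq_left (by linarith), max_eq_left (by linarith), min_eq_left (a := (w : ℝ)) (by linarith),
    min_eq_right (a := (w : ℝ) + 1 / 2) (by linarith), min_eq_left (a := (w : ℝ)) (by linarith),
    min_eq_left (b := (1 : ℝ)) (by linarith)]
  rw [min_comm]
  congr 1 <;> ring

theorem main : S_WPQ := by
  refine ⟨⟨QQ.lift rh 0 (fun x hx => (rh_zero x).mpr hx) rh_half, ?_, ?_, ?_, lam, ?_, ?_, ?_⟩, ?_⟩
  · intro p
    obtain ⟨x, rfl⟩ := QQ.mk_surj p
    exact rh_nonneg x
  · intro p
    obtain ⟨x, rfl⟩ := QQ.mk_surj p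
    exact min_le_left _ _
  · intro p
    obtain ⟨x, rfl⟩ := QQ.mk_surj p
    rw [QQ.lift_mk, rh_zero, mk_eq_pt]
  · intro p
    obtain ⟨⟨w, r⟩, rfl⟩ := QQ.mk_surj p
    rw [lam_mk, cmb_zero, cmb_zero]
  · intro s
    change lam (s, QQ.mk (0, 0)) = QQ.pt
    rw [lam_mk, E_low (by simp), R_low (by simp), cmb_self]
    rfl
  · intro p hp
    obtain ⟨⟨w, r⟩, rfl⟩ := QQ.mk_surj p
    rw [QQ.lift_mk, rh_apply] at hp
    rw [lam_mk, cmb_one, cmb_one]
    apply mk_bad
    have h5 : min (min (min (w : ℝ) (1 - w)) (1 - (r : ℝ))) (max |(w : ℝ) - 1 / 2| (r : ℝ)) ≤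
        1 / 8 := by
      rcases min_le_iff.mp hp with h | h
      · norm_num at h
      · linarith
    rcases min_le_iff.mp h5 with h5 | h5
    · rcases min_le_iff.mp h5 with h5 | h5
      · rcases min_le_iff.mp h5 with h5 | h5
        · left; exact E_low h5
        · right; left; exact E_high (by linarith)
      · right; right; left; exact R_high (by linarith)
    · right; right; right
      obtain ⟨h6, h7⟩ := max_le_iff.mp h5
      obtain ⟨h8, h9⟩ := abs_le.mp h6
      exact ⟨R_low h7, E_mid (by linarith) (by linarith)⟩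
  · intro w
    refine ⟨E w, ?_⟩
    change lam (1, QQ.mk (w, 0)) = _
    rw [lam_mk, cmb_one, cmb_one, R_low (by simp)]

end

end Pool.Agent.W400.SC.WPQ
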