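import Pool.Agent.W622.SC.Stmts

/-! # Double suspensions of nicely pointed spaces are nicely pointed -/

set_option autoImplicit false

open unitInterval Topology ContinuousMap
open Pool.Agent.W622.SC

namespace Pool.Agent.W400.SC.WPS2

noncomputable section

/-- stretch an interval coordinate away from the centre -/
def str (s x : I) : I :=
  Set.projIcc 0 1 zero_le_one ((1 + (s : ℝ)) * ((x : ℝ) - 1 / 2) + 1 / 2)

lemma str_cont : Continuous fun p : I × I => str p.1 p.2 := by
  unfold str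
  exact continuous_projIcc.comp (by fun_prop)

lemma str_zero (x : I) : str 0 x = x := by
  unfold str
  have : (1 + ((0 : I) : ℝ)) * ((x : ℝ) - 1 / 2) + 1 / 2 = x := by simp
  rw [this]
  exact Set.projIcc_of_mem _ x.2

lemma str_at_zero (s : I) : str s 0 = 0 := by
  unfold str
  have hs := s.2.1
  rw [Set.projIcc_of_le_left]
  · rfl
  · simp only [Set.Icc.coe_zero]; linarith

lemma str_at_one (s : I) : str s 1 = 1 := by
  unfold str
  have hs := s.2.1
  rw [Set.projIcc_of_right_le]
  · rfl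
  · simp only [Set.Icc.coe_one]; linarith

lemma str_one_low {x : I} (hx : (x : ℝ) ≤ 1 / 4) : str 1 x = 0 := by
  unfold str
  rw [Set.projIcc_of_le_left]
  · rfl
  · simp only [Set.Icc.coe_one]; linarith

lemma str_one_high {x : I} (hx : 3 / 4 ≤ (x : ℝ)) : str 1 x = 1 := by
  unfold str
  rw [Set.projIcc_of_right_le]
  · rfl
  · simp only [Set.Icc.coe_one]; linarith

/-- distance to the end points -/
def bd (x : I) : ℝ := min (2 * (x : ℝ)) (2 * (1 - (x : ℝ)))

lemma bd_cont : Continuous bd := by unfold bd; fun_prop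

lemma bd_nonneg (x : I) : 0 ≤ bd x := by
  unfold bd
  have h1 := x.2.1
  have h2 := x.2.2
  exact le_min (by linarith) (by linarith)

lemma bd_eq_zero {x : I} : bd x = 0 ↔ x = 0 ∨ x = 1 := by
  unfold bd
  have h1 := x.2.1
  have h2 := x.2.2
  constructor
  · intro h
    rcases min_choice (2 * (x : ℝ)) (2 * (1 - (x : ℝ))) with h3 | h3
    · left; rw [h] at h3; exact Subtype.ext (by simp only [Set.Icc.coe_zero]; linarith)
    · right; rw [h] at h3; exact Subtype.ext (by simp only [Set.Icc.coe_one]; linarith)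
  · rintro (rfl | rfl) <;> simp

variable {Q : Type} [TopologicalSpace Q]

/-- the size function on the product -/
def rh {q0 : Q} (W : WP Q q0) : C((Fin 2 → I) × Q, ℝ) :=
  ⟨fun x => min (W.rho x.2) (min (bd (x.1 0)) (bd (x.1 1))), by
    have := bd_cont
    fun_prop⟩

lemma rh_nonneg {q0 : Q} (W : WP Q q0) (x : (Fin 2 → I) × Q) : 0 ≤ rh W x :=
  le_min (W.rho_nonneg _) (le_min (bd_nonneg _) (bd_nonneg _))

lemma rh_bad {q0 : Q} (W : WP Q q0) (x : (Fin 2 → I) × Q) : rh W x = 0 ↔ S2bad q0 x := by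
  obtain ⟨t, q⟩ := x
  have h1 := W.rho_nonneg q
  have h2 := bd_nonneg (t 0)
  have h3 := bd_nonneg (t 1)
  constructor
  · intro h
    change min (W.rho q) (min (bd (t 0)) (bd (t 1))) = 0 at h
    rcases min_choice (W.rho q) (min (bd (t 0)) (bd (t 1))) with h4 | h4
    · right
      rw [h] at h4
      exact (W.rho_eq_zero q).mp h4.symm
    · left
      rw [h] at h4
      rcases min_choice (bd (t 0)) (bd (t 1)) with h5 | h5
      · rw [← h4] at h5
        exact ⟨0, bd_eq_zero.mp h5.symm⟩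
      · rw [← h4] at h5
        exact ⟨1, bd_eq_zero.mp h5.symm⟩
  · intro h
    refine le_antisymm ?_ (rh_nonneg W _)
    rcases h with ⟨i, hi⟩ | h
    · have h4 := bd_eq_zero.mpr hi
      change min (W.rho q) (min (bd (t 0)) (bd (t 1))) ≤ 0
      fin_cases i
      · exact (min_le_right _ _).trans ((min_le_left _ _).trans h4.le)
      · exact (min_le_right _ _).trans ((min_le_right _ _).trans h4.le)
    · exact (min_le_left _ _).trans ((W.rho_eq_zero q).mpr h).le

/-- the homotopy on the product -/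
def lm {q0 : Q} (W : WP Q q0) : C(I × ((Fin 2 → I) × Q), S2 q0) :=
  (S2.mk q0).comp ⟨fun x => (fun i => str x.1 (x.2.1 i), W.lam (x.1, x.2.2)), by
    refine Continuous.prodMk ?_ (by fun_prop)
    refine continuous_pi fun i => ?_
    exact str_cont.comp (by fun_prop : Continuous fun x : I × ((Fin 2 → I) × Q) => (x.1, x.2.1 i))⟩

lemma lm_apply {q0 : Q} (W : WP Q q0) (s : I) (t : Fin 2 → I) (q : Q) :
    lm W (s, (t, q)) = S2.mk q0 (fun i => str s (t i), W.lam (s, q)) := rfl

lemma lm_bad {q0 : Q} (W : WP Q q0) (s : I) (x : (Fin 2 → I) × Q) (h : S2bad q0 x) :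
    lm W (s, x) = S2.pt q0 := by
  obtain ⟨t, q⟩ := x
  rw [lm_apply]
  apply S2.mk_bad
  rcases h with ⟨i, hi⟩ | h
  · left
    refine ⟨i, ?_⟩
    simp only at hi ⊢
    rcases hi with hi | hi
    · left; rw [hi, str_at_zero]
    · right; rw [hi, str_at_one]
  · right
    simp only at h ⊢
    rw [h, W.lam_base]

/-- the homotopy on the double suspension -/
def lamS {q0 : Q} (W : WP Q q0) : C(I × S2 q0, S2 q0) :=
  S2.liftH (lm W) (ContinuousMap.const I (S2.pt q0)) (fun s x hx => by
    rw [ContinuousMap.const_apply]; exact lm_bad W s x hx)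

lemma lamS_mk {q0 : Q} (W : WP Q q0) (s : I) (x : (Fin 2 → I) × Q) :
    lamS W (s, S2.mk q0 x) = lm W (s, x) := rfl

lemma lamS_pt {q0 : Q} (W : WP Q q0) (s : I) : lamS W (s, S2.pt q0) = S2.pt q0 := by
  unfold S2.pt
  rw [lamS_mk]
  exact lm_bad W s _ (Or.inr rfl)

theorem main : S_WPS2 := by
  intro Q _ _ _ q0 W
  refine ⟨⟨S2.lift (rh W) 0 (fun x hx => (rh_bad W x).mpr hx), ?_, ?_, ?_,
    lamS W, ?_, ?_, ?_⟩, ?_⟩
  · intro p
    obtain ⟨x, rfl⟩ := S2.mk_surj q0 p
    exact rh_nonneg W x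
  · intro p
    obtain ⟨x, rfl⟩ := S2.mk_surj q0 p
    exact (min_le_left _ _).trans (W.rho_le_one _)
  · intro p
    obtain ⟨x, rfl⟩ := S2.mk_surj q0 p
    rw [S2.lift_mk, rh_bad, S2.mk_eq_pt_iff]
  · intro p
    obtain ⟨⟨t, q⟩, rfl⟩ := S2.mk_surj q0 p
    rw [lamS_mk, lm_apply, W.lam_zero]
    congr 2
    funext i
    exact str_zero _
  · intro s
    exact lamS_pt W s
  · intro p hp
    obtain ⟨⟨t, q⟩, rfl⟩ := S2.mk_surj q0 p
    rw [S2.lift_mk] at hp
    rw [lamS_mk, lm_apply]
    apply S2.mk_bad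
    change min (W.rho q) (min (bd (t 0)) (bd (t 1))) ≤ 1 / 2 at hp
    have key : ∀ i, bd (t i) ≤ 1 / 2 → str 1 (t i) = 0 ∨ str 1 (t i) = 1 := by
      intro i hi
      rcases min_le_iff.mp hi with h | h
      · left; exact str_one_low (by linarith)
      · right; exact str_one_high (by linarith)
    rcases min_le_iff.mp hp with h | h
    · right
      exact W.lam_one q h
    · left
      rcases min_le_iff.mp h with h | h
      · exact ⟨0, key 0 h⟩
      · exact ⟨1, key 1 h⟩
  · intro t q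
    exact ⟨fun i => str 1 (t i), rfl⟩

end

end Pool.Agent.W400.SC.WPS2
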